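import Pool.Agent.H452.G5

/-!
# MP_f5d5f4_nt: the uniform Frey–Mazur implication for pairs of curves which are isogenous over `K̄`

Let `K` be a number field (for instance `ℚ`), let `E : y² = x³ + Ax + B` and `E' : y² = x³ + A'x + B'`
be elliptic curves over `K`, let `p` be an odd prime, `p ∣ n`, and suppose that `E[n]` and `E'[n]` are
isomorphic as Galois modules (for example `n = p`: the curves are `p`-congruent).  Suppose that `E`
satisfies one of the following two hypotheses.

(T) The curve `E` is primitive at some prime `v` of `K` above `2` (`PrimitiveAt`): (a) `ord_v(A) = 1`,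
    `ord_v(B) = ord_v(2) + 1`, or (b) `0 < ord_v(j) < 12 ord_v(2)` with `ord_v(j)` divisible neither by
    `3` nor by `4`, or (c) the decomposition group of a prime of `K̄` above `v` acts on `E[3]` through a
    group which contains `SL₂(𝔽₃)`.  ((a) and (b) are special cases of (c).)
(D) `p ≥ 5`, and at some prime `w` of `K` the order of `j(E)` is negative and not divisible by `p` (if
    `w` is above `p`, we suppose that `8 ord_w(p) < p² - 1`).

**Result.**

(1) Let `φ : E(K̄) → E'(K̄)` be a homomorphism with finite kernel such that `φ ∘ σ = ± σ ∘ φ` for every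
    `σ ∈ Gal(K̄/K)`.  This is the case for the isogenies with cyclic kernel between two curves without
    complex multiplication which are isogenous over `K̄`, because they are, up to sign, unique.  Then
    `φ ∘ σ = σ ∘ φ` for all `σ`; so an isogeny `φ` is defined over `K`.  (Under (D) we suppose that the
    kernel of `φ` has no point of order `p`.)
(2) If `j(E) = j(E') ≠ 0, 1728`, then `E` and `E'` are isomorphic over `K`.

So the implication of Q1 (congruent curves are isogenous) holds, uniformly in both curves and for ALL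
odd primes `p`, under (T), if the two curves are isogenous over `K̄`.

Proof.  Composing `φ` (divided by the largest possible power of `p`) with the congruence we get an
injective endomorphism `a` of the plane `E[p]` with `a ∘ σ = ± σ ∘ a`.  Under (T) there are elements
`i, j, g` in the decomposition group with `i² = -1`, `ij = -ji`, `gi = jg`, `gj = ijg` on `E[p]`;
the relations force the signs of `i, j` to be positive, and an endomorphism which commutes with the
quaternions `i, j` is a scalar.  Under (D) there is an element `u` of order `p`, and `a`, which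
commutes with `u`, has only one eigenvalue; so `a` and `-a` are not conjugate.
-/

set_option autoImplicit false

open WeierstrassCurve NumberField IsDedekindDomain

namespace Pool.Agent.Results.MP_f5d5f4_nt.GeometricIsogenies

section
variable {K : Type} [Field K]

/-- The absolute Galois group. -/
abbrev Gal (K : Type) [Field K] : Type := AlgebraicClosure K ≃ₐ[K] AlgebraicClosure K

/-- The curve `y² = x³ + Ax + B` over the field `K`. -/
def curve (A B : K) : WeierstrassCurve K := ⟨0, 0, 0, A, B⟩

/-- Its `j`-invariant. -/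
noncomputable def invariant (A B : K) : K := 1728 * (4 * A ^ 3) / (4 * A ^ 3 + 27 * B ^ 2)

/-- The set of its points over the algebraic closure of `K`. -/
def Points (A B : K) : Type := ((curve A B).baseChange (AlgebraicClosure K)).toAffine.Point

open scoped Classical in
/-- The group law. -/
noncomputable instance (A B : K) : AddCommGroup (Points A B) :=
  inferInstanceAs (AddCommGroup ((curve A B).baseChange (AlgebraicClosure K)).toAffine.Point)

open scoped Classical in
/-- The point `σ(P)`. -/
noncomputable def conj {A B : K} (σ : Gal K) (P : Points A B) : Points A B :=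
  WeierstrassCurve.Affine.Point.map (W' := curve A B)
    (σ : AlgebraicClosure K →ₐ[K] AlgebraicClosure K) P

/-- The set of the points killed by `n`. -/
def Torsion (A B : K) (n : ℕ) : Set (Points A B) := {P | n • P = 0}

/-- The curves are `n`-congruent: there is an isomorphism `e : E[n] → E'[n]` of groups which commutes
with the Galois group (the values of `e` at the other points are irrelevant). -/
def Congruent (A B A' B' : K) (n : ℕ) : Prop :=
  ∃ e : Points A B → Points A' B', Set.BijOn e (Torsion A B n) (Torsion A' B' n) ∧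
    (∀ P ∈ Torsion A B n, ∀ Q ∈ Torsion A B n, e (P + Q) = e P + e Q) ∧
    ∀ (σ : Gal K), ∀ P ∈ Torsion A B n, e (conj σ P) = conj σ (e P)

/-- The points `P` and `Q` form a basis of the `n`-torsion. -/
def IsBasis {A B : K} (n : ℕ) (P Q : Points A B) : Prop :=
  n • P = 0 ∧ n • Q = 0 ∧ (∀ R : Points A B, n • R = 0 → ∃ k m : ℤ, R = k • P + m • Q) ∧
    ∀ k m : ℤ, k • P + m • Q = 0 → (n : ℤ) ∣ k ∧ (n : ℤ) ∣ m

/-- There is a basis `P, Q` of the `3`-torsion in which every matrix of determinant `1` modulo `3` is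
the matrix of some `σ ∈ I`. -/
def ContainsSLThree (A B : K) (I : Set (Gal K)) : Prop :=
  ∃ P Q : Points A B, IsBasis 3 P Q ∧ ∀ a b c d : ℤ, (3 : ℤ) ∣ a * d - b * c - 1 →
    ∃ σ ∈ I, conj σ P = a • P + c • Q ∧ conj σ Q = b • P + d • Q

end

variable {K : Type} [Field K] [NumberField K]

/-- The normalised valuation `ord_v(x)` of `x ∈ K`, for a prime `v` of `K` (used for `x ≠ 0`; for
`x = 0` the value is `0` by convention). -/
noncomputable def ord (v : HeightOneSpectrum (𝓞 K)) (x : K) : ℤ := -WithZero.log (v.valuation K x)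

/-- The decomposition group of a prime ideal `𝔓` of the ring of all algebraic integers of `K̄`: the
automorphisms `σ` such that an algebraic integer `x` lies in `𝔓` if and only if `σ(x)` does. -/
def decomposition (𝔓 : Ideal (𝓞 (AlgebraicClosure K))) : Set (Gal K) :=
  {σ | ∀ x : 𝓞 (AlgebraicClosure K), x ∈ 𝔓 ↔
    ∃ y ∈ 𝔓, σ (x : AlgebraicClosure K) = (y : AlgebraicClosure K)}

/-- The hypothesis (T) at the prime `v` (above `2`). -/
def PrimitiveAt (A B : K) (v : HeightOneSpectrum (𝓞 K)) : Prop :=
  (ord v A = 1 ∧ ord v B = ord v 2 + 1) ∨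
  (0 < ord v (invariant A B) ∧ ord v (invariant A B) < 12 * ord v 2 ∧
    ¬ (3 : ℤ) ∣ ord v (invariant A B) ∧ ¬ (4 : ℤ) ∣ ord v (invariant A B)) ∨
  (∃ 𝔓 : Ideal (𝓞 (AlgebraicClosure K)), 𝔓.IsPrime ∧
    𝔓.comap (algebraMap (𝓞 K) (𝓞 (AlgebraicClosure K))) = v.asIdeal ∧
    ContainsSLThree A B (decomposition 𝔓))

/-- The hypothesis (D) at the prime `w` (above any prime number): the order of `j(E)` at `w` is
negative and not divisible by `p`; if `w` is above `p`, then `8 ord_w(p) < p² - 1`. -/
def NotPowerAt (A B : K) (p : ℕ) (w : HeightOneSpectrum (𝓞 K)) : Prop :=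
  ord w (invariant A B) < 0 ∧ ¬ (p : ℤ) ∣ ord w (invariant A B) ∧
    ((p : 𝓞 K) ∉ w.asIdeal ∨ 8 * ord w (p : K) < (p : ℤ) ^ 2 - 1)

/-- The homomorphism `φ` commutes with `σ`, up to the factor `s`. -/
def Commutes {A B A' B' : K} (s : ℤ) (φ : Points A B →+ Points A' B') (σ : Gal K) : Prop :=
  ∀ P, φ (conj σ P) = s • conj σ (φ P)

/-- The homomorphism `φ` has a finite kernel and commutes or anticommutes with each `σ`. -/
def Signed {A B A' B' : K} (φ : Points A B →+ Points A' B') : Prop :=
  {P : Points A B | φ P = 0}.Finite ∧ ∀ σ : Gal K, Commutes 1 φ σ ∨ Commutes (-1) φ σ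

/-- The kernel of `φ` contains no point of order `p`. -/
def KernelPrimeTo {A B A' B' : K} (p : ℕ) (φ : Points A B →+ Points A' B') : Prop :=
  ∀ P : Points A B, p • P = 0 → φ P = 0 → P = 0

/-- If the curves have the same invariant, different from `0` and `1728`, then they are isomorphic
over `K`. -/
def TwistIsTrivial (A B A' B' : K) : Prop :=
  invariant A B = invariant A' B' → invariant A B ≠ 0 → invariant A B ≠ 1728 →
    ∃ u : K, u ≠ 0 ∧ A' = u ^ 4 * A ∧ B' = u ^ 6 * B

open scoped Classical in
/-- the isomorphism of the groups -/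
theorem exists_equiv {A B A' B' : K} {n : ℕ} (h : Congruent A B A' B' n) :
    ∃ e : Pool.Agent.H452.TE A B n ≃+ Pool.Agent.H452.TE A' B' n,
      ∀ σ P, e (Pool.Agent.H452.aT A B n σ P) = Pool.Agent.H452.aT A' B' n σ (e P) := by
  obtain ⟨e, h1, h2, h3⟩ := h
  set f : Torsion A B n ≃ Torsion A' B' n := Set.BijOn.equiv e h1 with hf
  have hfe : ∀ P : Torsion A B n, (f P : Points A' B') = e P := fun P => rfl
  refine ⟨⟨f, fun P Q => ?_⟩, fun σ P => ?_⟩
  · apply Subtype.ext
    exact h2 P.1 P.2 Q.1 Q.2
  · apply Subtype.ext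
    exact h3 σ P.1 P.2

/-- **The Frey–Mazur implication for curves which are isogenous over the algebraic closure.** -/
theorem result {A B A' B' : K} (hD : 4 * A ^ 3 + 27 * B ^ 2 ≠ 0)
    (hD' : 4 * A' ^ 3 + 27 * B' ^ 2 ≠ 0) {n p : ℕ} (hp : p.Prime) (hp2 : p ≠ 2) (hpn : p ∣ n)
    (hcong : Congruent A B A' B' n) :
    -- (T)
    ((∃ v : HeightOneSpectrum (𝓞 K), (2 : 𝓞 K) ∈ v.asIdeal ∧ PrimitiveAt A B v) →
      (∀ φ : Points A B →+ Points A' B', Signed φ → ∀ σ, Commutes 1 φ σ) ∧
      TwistIsTrivial A B A' B') ∧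
    -- (D)
    (5 ≤ p → (∃ w : HeightOneSpectrum (𝓞 K), NotPowerAt A B p w) →
      (∀ φ : Points A B →+ Points A' B', KernelPrimeTo p φ → Signed φ → ∀ σ, Commutes 1 φ σ) ∧
      TwistIsTrivial A B A' B') := by
  have hj : ∀ C D : K, Pool.Agent.Y673.Loc.jv C D = invariant C D := by
    intro C D
    unfold Pool.Agent.Y673.Loc.jv invariant
    ring
  obtain ⟨e, he'⟩ := exists_equiv hcong
  have hsg : ∀ φ : Points A B →+ Points A' B', (∀ σ, Commutes 1 φ σ ∨ Commutes (-1) φ σ) →
      ∀ σ, Pool.Agent.H452.Sgn (A := A) (B := B) (A' := A') (B' := B') φ σ := by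
    intro φ h σ
    rcases h σ with h | h
    · left
      intro P
      have := h P
      rw [one_smul] at this
      exact this
    · right
      intro P
      have := h P
      rw [neg_one_smul] at this
      exact this
  have hA0 : invariant A B ≠ 0 → A ≠ 0 := by
    rintro h rfl
    apply h
    unfold invariant
    ring
  have hB0 : invariant A B ≠ 1728 → B ≠ 0 := by
    rintro h rfl
    apply h
    unfold invariant
    have h0 : (4 : K) * A ^ 3 ≠ 0 := by
      intro h0
      apply hD
      rw [h0]
      ring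
    have e : (4 : K) * A ^ 3 + 27 * 0 ^ 2 = 4 * A ^ 3 := by ring
    rw [e, mul_div_assoc, div_self h0, mul_one]
  constructor
  · rintro ⟨v, h2, hv⟩
    have hH : Pool.Agent.H452.Hyp A B v := by
      unfold Pool.Agent.H452.Hyp
      rw [hj]
      rcases hv with h | h | ⟨𝔓, h𝔓, hv, P, Q, ⟨hP, hQ, hs, hi⟩, hall⟩
      · exact Or.inl h
      · exact Or.inr (Or.inl h)
      · obtain ⟨hP0, hPQ⟩ := Pool.Agent.H452.ne_of_basis (by norm_num) hi
        exact Or.inr (Or.inr ⟨𝔓, h𝔓, hv, P, Q, hP, hQ, hP0, hPQ, hall⟩)
    refine ⟨fun φ ⟨hfin, hφ⟩ σ P => ?_, fun hjj h0 h1728 => ?_⟩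
    · rw [one_smul]
      exact Pool.Agent.H452.fm_core hD hp hp2 hpn e he' φ hfin (hsg φ hφ) (Or.inl ⟨v, h2, hH⟩) σ P
    · exact Pool.Agent.H452.same_j hD hD' (hA0 h0) (hB0 h1728) (by rw [hj, hj, hjj]) hp hp2 hpn e he'
        (Or.inl ⟨v, h2, hH⟩)
  · rintro hp5 ⟨w, h1, h3, h4⟩
    have hO := Pool.Agent.H452.ordP_of_place hD hp hp5 w (by rw [hj]; exact h1) (by rw [hj]; exact h3)
      h4
    refine ⟨fun φ hker ⟨hfin, hφ⟩ σ P => ?_, fun hjj h0 h1728 => ?_⟩
    · rw [one_smul]
      exact Pool.Agent.H452.fm_core hD hp hp2 hpn e he' φ hfin (hsg φ hφ) (Or.inr ⟨hO, hker⟩) σ P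
    · exact Pool.Agent.H452.same_j hD hD' (hA0 h0) (hB0 h1728) (by rw [hj, hj, hjj]) hp hp2 hpn e he'
        (Or.inr hO)

end Pool.Agent.Results.MP_f5d5f4_nt.GeometricIsogenies
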