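import Pool.Agent.H452.K15

/-!
# MP_f5d5f4_nt: the curves which are congruent to a curve with complex multiplication

Let `K` be a number field (for instance `ℚ`), `E : y² = x³ + Ax + B` and `E' : y² = x³ + A'x + B'` elliptic
curves over `K` with `A ≠ 0`, `B ≠ 0`, `j` the invariant of `E`, `Δ = 4A³ + 27B²`, `p ≥ 5` a prime, and suppose
that `E` and `E'` are `p`-congruent.  Let `α` be an endomorphism of the group `E'(K̄)`, which is not the
multiplication by an integer on `E'[p]`, and `t` an integer such that `α ∘ σ = σ ∘ α` or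
`α ∘ σ = σ ∘ (t - α)` for every `σ ∈ Gal(K̄/K)`.  (If `E'` has complex multiplication by the quadratic order
`ℤ[α]`, with `α` of trace `t`, then `α` has these properties for all `p`.)

**Result.**  Either `E[p]` has a line stable under `Gal(K̄/K)`, and `1` is compatible (see below), or there
is a compatible `d ∈ Kˣ` such that

* `α` commutes with `σ` if and only if `σ` fixes `√d` (so `K(√d)` is the composite of `K` and of the field
  of complex multiplication of `E'`; `d` is a square if this field is contained in `K`);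
* `p ∣ ord_v(j)` for every prime `v` with `ord_v(j) < 0` which does not divide `p` (or with
  `8 ord_v(p) < p² - 1`);
* `E[p]` has a line which is stable under `Gal(K̄/K(√d))`, or `d` is negative at all real places of `K`,
  `p ∣ N(v)² - 1` for all `v ∤ p` with `ord_v(j) < 0`, and `ord_v(j) ≥ 0` for `v ∣ p` with
  `p > 15 ord_v(p) + 1`.

Here `d` is *compatible* with `E` and `p` if

* `K(√d)/K` is unramified at every prime `v ∤ p` (also above `2`) such that `ord_v(j) < 0`, or `v ∤ 2` and
  `ord_v(Δ)` is even, and at every prime `v ∣ p` with `p > 15 ord_v(p) + 1`;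
* `-Δd` is a square in `K_v` if `v ∤ 2p`, `3 ∤ ord_v(B)`, `2 ord_v(B) < 3 ord_v(A)`;
* `-d` is a square in `K_v` if `v ∤ 2p`, `ord_v(A)` is odd, `3 ord_v(A) < 2 ord_v(B)` and `K(√d)` is unramified
  at `v`;
* if `ord_v(j) < 0`, `v ∤ p`, then `d` is a square in `K_v` or `p ∣ N(v) + 1`;
* if `y² = x³ + ax + b`, `a, b ∈ 𝒪_K`, is a model of `E` and `v ∤ 2p(4a³ + 27b²)` a prime, then `d` is a square
  in `K_v` or `p` divides `N(v) + 1 - #E(k_v)`;
* if `v ∣ 2`, `ord_v(j) > 0` and the decomposition group of `v` acts on `E[3]` through a nonabelian group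
  (or: `3 ∤ ord_v(j)`, `N(v) ≡ 2 mod 3`), then `d` is not a square in `K_v`; if the inertia group acts
  through a nonabelian group then `K(√d)` is ramified at `v`.

So, for example, if `E` is semistable outside `2` (or: if `ord_v(Δ)` is even for all `v ∤ 2` with
`ord_v(j) ≥ 0`), has no isogeny of degree `p` over `K`, and is `p`-congruent to a curve with complex
multiplication by `F`, then `KF / K` is unramified outside `2` and the primes above `p` with
`p ≤ 15 ord_v(p) + 1`.  This is a statement about ALL curves `E`; the hand-in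
`MP_a60a76_nt.NotCongruentToCM` treats classes of curves for which there are no congruences at all.

Proof.  `2α - t` gives an endomorphism `a` of the plane `E[p]`, which is not a scalar, with
`a ∘ σ = χ(σ) σ ∘ a`, `χ(σ) = ±1`.  If there is no stable line, `a` is injective, there is no element of order
`p` in the image of the Galois group, the centraliser `C` of `a` in the image is commutative and the
elements of the image outside `C` anticommute with `a`.  This is the situation which is studied in the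
files `J1` - `J25`, `K1` - `K10` (there for the exceptions to uniform surjectivity, see
`MP_d87173_nt.QuadraticCharacter`, where `p` is large); here `p ≥ 5` is arbitrary.
-/

set_option autoImplicit false

open WeierstrassCurve NumberField IsDedekindDomain

namespace Pool.Agent.Results.MP_f5d5f4_nt.PartnersOfCM

section
variable {K : Type} [Field K]

/-- The absolute Galois group. -/
abbrev Gal (K : Type) [Field K] : Type := AlgebraicClosure K ≃ₐ[K] AlgebraicClosure K

/-- The curve `y² = x³ + Ax + B` over the field `K`. -/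
def curve (A B : K) : WeierstrassCurve K := ⟨0, 0, 0, A, B⟩

/-- Its `j`-invariant. -/
noncomputable def invariant (A B : K) : K := 1728 * (4 * A ^ 3) / (4 * A ^ 3 + 27 * B ^ 2)

/-- The set of its points over the algebraic closure of `K`. -/
def Points (A B : K) : Type := ((curve A B).baseChange (AlgebraicClosure K)).toAffine.Point

open scoped Classical in
/-- The group law. -/
noncomputable instance (A B : K) : AddCommGroup (Points A B) :=
  inferInstanceAs (AddCommGroup ((curve A B).baseChange (AlgebraicClosure K)).toAffine.Point)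

open scoped Classical in
/-- The point `σ(P)`. -/
noncomputable def conj {A B : K} (σ : Gal K) (P : Points A B) : Points A B :=
  WeierstrassCurve.Affine.Point.map (W' := curve A B)
    (σ : AlgebraicClosure K →ₐ[K] AlgebraicClosure K) P

/-- The set of the points killed by `n`. -/
def Torsion (A B : K) (n : ℕ) : Set (Points A B) := {P | n • P = 0}

/-- The curves are `n`-congruent: there is an isomorphism `e : E[n] → E'[n]` of groups which commutes
with the Galois group (the values of `e` at the other points are irrelevant). -/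
def Congruent (A B A' B' : K) (n : ℕ) : Prop :=
  ∃ e : Points A B → Points A' B', Set.BijOn e (Torsion A B n) (Torsion A' B' n) ∧
    (∀ P ∈ Torsion A B n, ∀ Q ∈ Torsion A B n, e (P + Q) = e P + e Q) ∧
    ∀ (σ : Gal K), ∀ P ∈ Torsion A B n, e (conj σ P) = conj σ (e P)

/-- The endomorphism `α` commutes with `σ`. -/
def Commutes {A B : K} (α : Points A B →+ Points A B) (σ : Gal K) : Prop :=
  ∀ P, α (conj σ P) = conj σ (α P)

/-- The endomorphism `α` is mapped by each `σ` to `α` or to `t - α`. -/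
def Quadratic {A B : K} (α : Points A B →+ Points A B) (t : ℤ) : Prop :=
  ∀ σ : Gal K, Commutes α σ ∨ ∀ P, α (conj σ P) = conj σ (t • P - α P)

/-- The endomorphism `α` is an integer on the points of order `p`. -/
def IntegerOn {A B : K} (p : ℕ) (α : Points A B →+ Points A B) : Prop :=
  ∃ c : ℤ, ∀ P : Points A B, p • P = 0 → α P = c • P

/-- The element `d` is not zero, and `α` commutes with `σ` if and only if `σ` fixes the square roots
of `d`. -/
def DefinedOver {A B : K} (α : Points A B →+ Points A B) (d : K) : Prop :=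
  d ≠ 0 ∧ ∀ (σ : Gal K) (s : AlgebraicClosure K),
    s ^ 2 = algebraMap K (AlgebraicClosure K) d → (σ s = s ↔ Commutes α σ)

/-- Two elements of the set `G` of automorphisms do not commute on the `3`-torsion. -/
def Nonabelian (A B : K) (G : Set (Gal K)) : Prop :=
  ∃ σ ∈ G, ∃ τ ∈ G, ∃ P : Points A B, 3 • P = 0 ∧ conj σ (conj τ P) ≠ conj τ (conj σ P)

/-- Some line of the `p`-torsion is stable under the Galois group. -/
def HasStableLine (A B : K) (p : ℕ) : Prop :=
  ∃ P : Points A B, p • P = 0 ∧ P ≠ 0 ∧ ∀ σ : Gal K, ∃ k : ℤ, conj σ P = k • P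

/-- Some line of the `p`-torsion is stable under the automorphisms which fix the square roots of
`d`. -/
def HasStableLineOver (A B : K) (p : ℕ) (d : K) : Prop :=
  ∃ P : Points A B, p • P = 0 ∧ P ≠ 0 ∧ ∀ σ : Gal K,
    (∀ x : AlgebraicClosure K, x ^ 2 = algebraMap K (AlgebraicClosure K) d → σ x = x) →
    ∃ k : ℤ, conj σ P = k • P

end

variable {K : Type} [Field K] [NumberField K]

/-- The normalised valuation `ord_v(x)` of `x ∈ K`, for a prime `v` of `K` (used for `x ≠ 0`; for
`x = 0` the value is `0` by convention). -/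
noncomputable def ord (v : HeightOneSpectrum (𝓞 K)) (x : K) : ℤ := -WithZero.log (v.valuation K x)

/-- The element `c ≠ 0` is a square in the completion of `K` at `v`: there is a `y` such that `c / y²`
is `1` modulo `4 π`, where `π` is a uniformiser. -/
def LocalSquare (v : HeightOneSpectrum (𝓞 K)) (c : K) : Prop :=
  ∃ y : K, y ≠ 0 ∧ (c / y ^ 2 - 1 = 0 ∨ 2 * ord v 2 + 1 ≤ ord v (c / y ^ 2 - 1))

/-- The extension generated by a square root of `d ≠ 0` is unramified at `v`: there is a `y` such that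
`d / y²` is a unit and `1` modulo `4`. -/
def Unramified (v : HeightOneSpectrum (𝓞 K)) (d : K) : Prop :=
  ∃ y : K, y ≠ 0 ∧ ord v d = 2 * ord v y ∧
    (d / y ^ 2 - 1 = 0 ∨ 2 * ord v 2 ≤ ord v (d / y ^ 2 - 1))

/-- The prime ideal `𝔓` of the ring of all algebraic integers of `K̄` is above `v`. -/
def Above (𝔓 : Ideal (𝓞 (AlgebraicClosure K))) (v : HeightOneSpectrum (𝓞 K)) : Prop :=
  𝔓.IsPrime ∧ 𝔓.comap (algebraMap (𝓞 K) (𝓞 (AlgebraicClosure K))) = v.asIdeal

/-- The decomposition group of a prime ideal `𝔓` of the ring of all algebraic integers of `K̄`: the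
automorphisms `σ` such that an algebraic integer `x` lies in `𝔓` if and only if `σ(x)` does. -/
def decomposition (𝔓 : Ideal (𝓞 (AlgebraicClosure K))) : Set (Gal K) :=
  {σ | ∀ x : 𝓞 (AlgebraicClosure K), x ∈ 𝔓 ↔
    ∃ y ∈ 𝔓, σ (x : AlgebraicClosure K) = (y : AlgebraicClosure K)}

/-- The inertia group of `𝔓`: the automorphisms `σ` such that `σ(x) - x` lies in `𝔓` for all algebraic
integers `x`. -/
def inertia (𝔓 : Ideal (𝓞 (AlgebraicClosure K))) : Set (Gal K) :=
  {σ | ∀ x : 𝓞 (AlgebraicClosure K), ∃ y ∈ 𝔓,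
    σ (x : AlgebraicClosure K) - (x : AlgebraicClosure K) = (y : AlgebraicClosure K)}

/-- The number of elements of the residue field of `v`. -/
noncomputable def norm (v : HeightOneSpectrum (𝓞 K)) : ℕ := Nat.card (𝓞 K ⧸ v.asIdeal)

/-- The number of points (with the point at infinity) of the reduction of `y² = x³ + ax + b` modulo
`v`. -/
noncomputable def numPoints (v : HeightOneSpectrum (𝓞 K)) (a b : 𝓞 K) : ℕ :=
  1 + Nat.card {P : (𝓞 K ⧸ v.asIdeal) × (𝓞 K ⧸ v.asIdeal) // P.2 ^ 2 =
    P.1 ^ 3 + Ideal.Quotient.mk v.asIdeal a * P.1 + Ideal.Quotient.mk v.asIdeal b}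

/-- The prime `p` divides the orders of the poles of `j`. -/
def PolesDivisible (A B : K) (p : ℕ) : Prop :=
  ∀ v : HeightOneSpectrum (𝓞 K), ord v (invariant A B) < 0 →
    ((p : 𝓞 K) ∉ v.asIdeal ∨ 8 * ord v (p : K) < (p : ℤ) ^ 2 - 1) →
    (p : ℤ) ∣ ord v (invariant A B)

/-- The element `d` is compatible with the curve `y² = x³ + Ax + B` and with `p`. -/
structure Compatible (A B : K) (p : ℕ) (d : K) : Prop where
  unramified : ∀ v : HeightOneSpectrum (𝓞 K), (p : 𝓞 K) ∉ v.asIdeal →
    (ord v (invariant A B) < 0 ∨ (ord v 2 = 0 ∧ (2 : ℤ) ∣ ord v (4 * A ^ 3 + 27 * B ^ 2))) →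
    Unramified v d
  unramified_above : ∀ v : HeightOneSpectrum (𝓞 K), (p : 𝓞 K) ∈ v.asIdeal →
    15 * ord v (p : K) + 1 < p → Unramified v d
  three : ∀ v : HeightOneSpectrum (𝓞 K), (p : 𝓞 K) ∉ v.asIdeal → ord v 2 = 0 →
    ¬ (3 : ℤ) ∣ ord v B → 2 * ord v B < 3 * ord v A →
    LocalSquare v (-(4 * A ^ 3 + 27 * B ^ 2) * d)
  four : ∀ v : HeightOneSpectrum (𝓞 K), (p : 𝓞 K) ∉ v.asIdeal → ord v 2 = 0 →
    ¬ (2 : ℤ) ∣ ord v A → 3 * ord v A < 2 * ord v B → Unramified v d → LocalSquare v (-d)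
  multiplicative : ∀ v : HeightOneSpectrum (𝓞 K), (p : 𝓞 K) ∉ v.asIdeal →
    ord v (invariant A B) < 0 → LocalSquare v d ∨ p ∣ norm v + 1
  points : ∀ (u : K) (a b : 𝓞 K), u ≠ 0 → A = u ^ 4 * (a : K) → B = u ^ 6 * (b : K) →
    ∀ v : HeightOneSpectrum (𝓞 K), (2 : 𝓞 K) ∉ v.asIdeal → (p : 𝓞 K) ∉ v.asIdeal →
      4 * a ^ 3 + 27 * b ^ 2 ∉ v.asIdeal →
      LocalSquare v d ∨ (p : ℤ) ∣ (norm v : ℤ) + 1 - numPoints v a b
  two_decomposition : ∀ v : HeightOneSpectrum (𝓞 K), (2 : 𝓞 K) ∈ v.asIdeal →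
    0 < ord v (invariant A B) →
    ((∃ 𝔓, Above 𝔓 v ∧ Nonabelian A B (decomposition 𝔓)) ∨
      (¬ (3 : ℤ) ∣ ord v (invariant A B) ∧ norm v % 3 = 2)) → ¬ LocalSquare v d
  two_inertia : ∀ v : HeightOneSpectrum (𝓞 K), (2 : 𝓞 K) ∈ v.asIdeal →
    0 < ord v (invariant A B) → (∃ 𝔓, Above 𝔓 v ∧ Nonabelian A B (inertia 𝔓)) → ¬ Unramified v d

/-- The element `d` is negative at the real places, `p` divides `N(v)² - 1` whenever `v` does not divide
`p` and `ord_v(j)` is negative, and `ord_v(j)` is not negative for `v` above `p` with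
`p > 15 ord_v(p) + 1`. -/
def Nonsplit (A B : K) (p : ℕ) (d : K) : Prop :=
  (∀ φ : K →+* ℝ, φ d < 0) ∧
  (∀ v : HeightOneSpectrum (𝓞 K), (p : 𝓞 K) ∉ v.asIdeal → ord v (invariant A B) < 0 →
    (p : ℤ) ∣ (norm v : ℤ) ^ 2 - 1) ∧
  ∀ v : HeightOneSpectrum (𝓞 K), (p : 𝓞 K) ∈ v.asIdeal → 15 * ord v (p : K) + 1 < p →
    ¬ ord v (invariant A B) < 0

open scoped Classical in
/-- the isomorphism of the groups -/
theorem exists_equiv {A B A' B' : K} {n : ℕ} (h : Congruent A B A' B' n) :
    ∃ e : Pool.Agent.H452.TE A B n ≃+ Pool.Agent.H452.TE A' B' n,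
      ∀ σ P, e (Pool.Agent.H452.aT A B n σ P) = Pool.Agent.H452.aT A' B' n σ (e P) := by
  obtain ⟨e, h1, h2, h3⟩ := h
  set f : Torsion A B n ≃ Torsion A' B' n := Set.BijOn.equiv e h1 with hf
  refine ⟨⟨f, fun P Q => ?_⟩, fun σ P => ?_⟩
  · apply Subtype.ext
    exact h2 P.1 P.2 Q.1 Q.2
  · apply Subtype.ext
    exact h3 σ P.1 P.2

/-- **The curves which are congruent to a curve with complex multiplication.** -/
theorem result {A B A' B' : K} (hD : 4 * A ^ 3 + 27 * B ^ 2 ≠ 0)
    (hD' : 4 * A' ^ 3 + 27 * B' ^ 2 ≠ 0) (hA : A ≠ 0) (hB : B ≠ 0) {p : ℕ} (hp : p.Prime)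
    (hp5 : 5 ≤ p) (hcong : Congruent A B A' B' p)
    (α : Points A' B' →+ Points A' B') (t : ℤ) (hα : Quadratic α t) (hno : ¬ IntegerOn p α) :
    (HasStableLine A B p ∧ Compatible A B p 1) ∨
    ∃ d : K, DefinedOver α d ∧ Compatible A B p d ∧ PolesDivisible A B p ∧
      (HasStableLineOver A B p d ∨ Nonsplit A B p d) := by
  have hj : Pool.Agent.Y673.Loc.jv A B = invariant A B := by
    unfold Pool.Agent.Y673.Loc.jv invariant
    ring
  have conv : ∀ d : K, Pool.Agent.H452.CndT A B p d → Compatible A B p d := by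
    rintro d ⟨h2, ⟨h3, h4⟩, h5, ⟨h6, h7⟩, -, h9⟩
    rw [hj] at h2 h5
    refine ⟨fun v hpv hv => h2 v (Or.inl ⟨hpv, hv⟩),
      fun v hpv hlt => h2 v (Or.inr ⟨hpv, hlt⟩), fun v hpv e1 e2 e3 => h3 v ⟨e1, e2, e3⟩ hpv,
      fun v hpv e1 e2 e3 => h4 v ⟨e1, e2, e3⟩ hpv, fun v hpv hv => h5 v hv (Or.inl hpv), h9,
      fun v h2v hjv hv => h6 v ?_, fun v h2v hjv hv => h7 v ?_⟩
    · rcases hv with ⟨𝔓, ⟨e1, e2⟩, e3⟩ | ⟨e1, e2⟩
      · refine Or.inl ⟨h2v, ?_, 𝔓, e1, e2, e3⟩
        rw [hj]; exact hjv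
      · refine Or.inr ⟨h2v, ?_, ?_, e2⟩
        · rw [hj]; exact hjv
        · rw [hj]; exact e1
    · obtain ⟨𝔓, ⟨e1, e2⟩, e3⟩ := hv
      refine ⟨h2v, ?_, 𝔓, e1, e2, e3⟩
      rw [hj]; exact hjv
  obtain ⟨e, he⟩ := exists_equiv hcong
  rcases Pool.Agent.H452.cm_main hD hD' hA hB hp hp5 e he α t hα hno with ⟨h1, h2⟩ | h
  · exact Or.inl ⟨h1, conv 1 h2⟩
  · right
    obtain ⟨d, hd, hd', h1, h2, h10⟩ := h
    rw [hj] at h1
    refine ⟨d, ⟨hd, hd'⟩, conv d h2, h1, ?_⟩
    rcases h10 with h | ⟨e1, e2, e3⟩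
    · exact Or.inl h
    · rw [hj] at e2 e3
      exact Or.inr ⟨e1, fun v hpv hv => e2 v hv hpv, e3⟩

end Pool.Agent.Results.MP_f5d5f4_nt.PartnersOfCM
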